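import Mathlib

set_option autoImplicit false

/-!
# Planar sets with distance multiplicities `(n - 1, n - 2, ..., 1)`

The zigzag set consists of the points `P x = (x, 0)` for even `x` and `P x = (x, √2)` for odd `x`,
where `0 ≤ x < n`. The distance of `P x` and `P y` depends only on `δ = |x - y|`: its square is
`δ ^ 2` if `δ` is even and `δ ^ 2 + 2` if `δ` is odd, and this is an injective function of `δ`. So
the distance with parameter `δ` has multiplicity `n - δ`.
-/

namespace Pool.Agent.Results.MP_9c346b_co.Zigzag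

open Finset

/-- The Euclidean plane. -/
abbrev E := EuclideanSpace ℝ (Fin 2)

/-- The set of distances of `X` (between different points of `X`). -/
noncomputable def distances (X : Finset E) : Finset ℝ :=
  X.offDiag.image (fun p => dist p.1 p.2)

/-- The multiplicity of the distance `d` in `X`: the number of unordered pairs of different points
of `X` at distance `d`. -/
noncomputable def mult (X : Finset E) (d : ℝ) : ℕ :=
  Set.ncard {z : Sym2 E | ∃ x ∈ X, ∃ y ∈ X, x ≠ y ∧ dist x y = d ∧ z = s(x, y)}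

/-- The list `a(X)` of the multiplicities of the distances of `X` in non-increasing order. -/
noncomputable def a (X : Finset E) : List ℕ :=
  ((distances X).val.map (mult X)).sort (· ≥ ·)

/-- `X` consists of `n` equally spaced points of a line. -/
def TypeA (X : Finset E) (n : ℕ) : Prop :=
  ∃ p v : E, v ≠ 0 ∧ (X : Set E) = {q | ∃ j : ℕ, j < n ∧ q = p + (j : ℝ) • v}

/-- The point with angle `t` of the circle with centre `c` and radius `r`. -/
noncomputable def circ (c : E) (r t : ℝ) : E := c + r • !₂[Real.cos t, Real.sin t]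

/-- `X` consists of `n` equally spaced points of an arc of a circle. -/
def TypeB (X : Finset E) (n : ℕ) : Prop :=
  ∃ (c : E) (r α θ : ℝ), 0 < r ∧ 0 < ((n : ℝ) - 1) * θ ∧ ((n : ℝ) - 1) * θ < 2 * Real.pi ∧
    (X : Set E) = {q | ∃ j : ℕ, j < n ∧ q = circ c r (α + j * θ)}

/-- `X` consists of the centre of a circle and of `n - 1` equally spaced points of an arc of this
circle. -/
def TypeC (X : Finset E) (n : ℕ) : Prop :=
  ∃ (c : E) (r α θ : ℝ), 0 < r ∧ 0 < ((n : ℝ) - 2) * θ ∧ ((n : ℝ) - 2) * θ < 2 * Real.pi ∧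
    (X : Set E) = {c} ∪ {q | ∃ j : ℕ, j < n - 1 ∧ q = circ c r (α + j * θ)}

/-! ### The zigzag set -/

/-- The points of the zigzag. -/
noncomputable def P (x : ℕ) : E := !₂[(x : ℝ), √2 * ((x % 2 : ℕ) : ℝ)]

/-- The square of the distance with parameter `δ`. -/
def f (δ : ℕ) : ℕ := δ ^ 2 + 2 * (δ % 2)

lemma f_lt {δ γ : ℕ} (h : δ < γ) : f δ < f γ := by
  unfold f
  have h2 : δ % 2 ≤ δ := Nat.mod_le _ _
  have h3 : δ % 2 < 2 := Nat.mod_lt _ (by norm_num)
  nlinarith [Nat.zero_le (γ % 2)]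

lemma f_inj {δ γ : ℕ} (h : f δ = f γ) : δ = γ := by
  rcases lt_trichotomy δ γ with h1 | h1 | h1
  · exact absurd h (f_lt h1).ne
  · exact h1
  · exact absurd h (f_lt h1).ne'

lemma dist_P_sub (x δ : ℕ) : dist (P (x + δ)) (P x) = √(f δ : ℝ) := by
  rw [EuclideanSpace.dist_eq]
  congr 1
  simp only [Fin.sum_univ_two, P, Real.dist_eq, sq_abs]
  simp only [WithLp.ofLp_toLp, Matrix.cons_val_zero, Matrix.cons_val_one]
  have h2 : (√2 : ℝ) ^ 2 = 2 := Real.sq_sqrt (by norm_num)
  have key : (((x + δ) % 2 : ℕ) : ℝ) - ((x % 2 : ℕ) : ℝ) = ((δ % 2 : ℕ) : ℝ) ∨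
      (((x + δ) % 2 : ℕ) : ℝ) - ((x % 2 : ℕ) : ℝ) = -((δ % 2 : ℕ) : ℝ) := by
    rcases Nat.mod_two_eq_zero_or_one x with h | h <;>
    rcases Nat.mod_two_eq_zero_or_one δ with h' | h' <;>
    simp [Nat.add_mod, h, h']
  have key2 : ((δ % 2 : ℕ) : ℝ) ^ 2 = ((δ % 2 : ℕ) : ℝ) := by
    rcases Nat.mod_two_eq_zero_or_one δ with h' | h' <;> simp [h']
  have key3 : ((((x + δ) % 2 : ℕ) : ℝ) - ((x % 2 : ℕ) : ℝ)) ^ 2 = ((δ % 2 : ℕ) : ℝ) := by
    rcases key with h | h
    · rw [h, key2]
    · rw [h, neg_sq, key2]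
  rw [← mul_sub, mul_pow, h2, key3]
  unfold f
  push_cast
  ring

lemma P_inj : Function.Injective P := by
  intro x y h
  have h1 := congrArg (fun v : E => v 0) h
  simp only [P, WithLp.ofLp_toLp, Matrix.cons_val_zero] at h1
  exact_mod_cast h1

/-- The zigzag set. -/
noncomputable def X (n : ℕ) : Finset E := (range n).image P

lemma card_X (n : ℕ) : (X n).card = n := by
  unfold X
  rw [card_image_of_injective _ P_inj, card_range]

lemma mem_X {n : ℕ} {q : E} : q ∈ X n ↔ ∃ x : ℕ, x < n ∧ P x = q := by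
  unfold X
  simp only [mem_image, mem_range]

lemma sqrt_f_inj {δ γ : ℕ} (h : √(f δ : ℝ) = √(f γ : ℝ)) : δ = γ := by
  apply f_inj
  have h1 : (f δ : ℝ) = f γ := by
    rw [← Real.sq_sqrt (Nat.cast_nonneg (f δ)), h, Real.sq_sqrt (Nat.cast_nonneg (f γ))]
  exact_mod_cast h1

lemma distances_X (n : ℕ) :
    distances (X n) = (Icc 1 (n - 1)).image (fun δ : ℕ => √(f δ : ℝ)) := by
  ext d
  unfold distances
  simp only [mem_image, mem_offDiag, Prod.exists, mem_Icc]
  constructor
  · rintro ⟨p, q, ⟨hp, hq, hpq⟩, rfl⟩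
    obtain ⟨x, hx, rfl⟩ := mem_X.1 hp
    obtain ⟨y, hy, rfl⟩ := mem_X.1 hq
    rcases lt_trichotomy x y with h | h | h
    · refine ⟨y - x, ⟨by omega, by omega⟩, ?_⟩
      rw [dist_comm, ← dist_P_sub x (y - x)]
      congr 2
      omega
    · exact absurd (by rw [h]) hpq
    · refine ⟨x - y, ⟨by omega, by omega⟩, ?_⟩
      rw [← dist_P_sub y (x - y)]
      congr 2
      omega
  · rintro ⟨δ, ⟨h1, h2⟩, rfl⟩
    refine ⟨P (0 + δ), P 0, ⟨mem_X.2 ⟨_, by omega, rfl⟩, mem_X.2 ⟨0, by omega, rfl⟩, ?_⟩,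
      dist_P_sub 0 δ⟩
    intro h
    have := P_inj h
    omega

lemma mult_X (n δ : ℕ) (h1 : 1 ≤ δ) : mult (X n) (√(f δ : ℝ)) = n - δ := by
  unfold mult
  have hset : {z : Sym2 E | ∃ x ∈ X n, ∃ y ∈ X n, x ≠ y ∧ dist x y = √(f δ : ℝ) ∧ z = s(x, y)} =
      (((range (n - δ)).image (fun x => s(P (x + δ), P x)) : Finset (Sym2 E)) : Set (Sym2 E)) := by
    ext z
    simp only [Set.mem_ofPred_eq, coe_image, Set.mem_image, mem_coe, mem_range]
    constructor
    · rintro ⟨p, hp, q, hq, hpq, hd, rfl⟩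
      obtain ⟨x, hx, rfl⟩ := mem_X.1 hp
      obtain ⟨y, hy, rfl⟩ := mem_X.1 hq
      rcases lt_trichotomy x y with h | h | h
      · obtain ⟨γ, rfl⟩ := Nat.exists_eq_add_of_le h.le
        rw [dist_comm, dist_P_sub] at hd
        have := sqrt_f_inj hd
        subst this
        exact ⟨x, by omega, Sym2.eq_swap⟩
      · exact absurd (by rw [h]) hpq
      · obtain ⟨γ, rfl⟩ := Nat.exists_eq_add_of_le h.le
        rw [dist_P_sub] at hd
        have := sqrt_f_inj hd
        subst this
        exact ⟨y, by omega, rfl⟩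
    · rintro ⟨x, hx, rfl⟩
      refine ⟨P (x + δ), mem_X.2 ⟨_, by omega, rfl⟩, P x, mem_X.2 ⟨x, by omega, rfl⟩, ?_,
        dist_P_sub x δ, rfl⟩
      intro h
      have := P_inj h
      omega
  rw [hset, Set.ncard_coe_finset, card_image_of_injective, card_range]
  intro x y hxy
  simp only [Sym2.eq_iff] at hxy
  rcases hxy with ⟨-, h⟩ | ⟨h, h'⟩
  · exact P_inj h
  · have e1 := P_inj h
    have e2 := P_inj h'
    omega

lemma a_X (n : ℕ) : a (X n) = (List.range' 1 (n - 1)).reverse := by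
  unfold a
  have hperm : ((distances (X n)).val.map (mult (X n))) =
      (((List.range' 1 (n - 1)).reverse : List ℕ) : Multiset ℕ) := by
    rw [distances_X, image_val_of_injOn, Multiset.map_map]
    · have h1 : Multiset.map (mult (X n) ∘ fun δ : ℕ => √(f δ : ℝ)) (Icc 1 (n - 1)).val =
          Multiset.map (fun δ => n - δ) (Icc 1 (n - 1)).val := by
        apply Multiset.map_congr rfl
        intro δ hδ
        have hδ' : δ ∈ Icc 1 (n - 1) := hδ
        exact mult_X n δ (mem_Icc.1 hδ').1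
      rw [h1]
      have h2 : Set.InjOn (fun δ => n - δ) ((Icc 1 (n - 1) : Finset ℕ) : Set ℕ) := by
        intro x hx y hy hxy
        have hx' := mem_Icc.1 hx
        have hy' := mem_Icc.1 hy
        simp only at hxy
        omega
      have h3 : (Icc 1 (n - 1)).image (fun δ => n - δ) = Icc 1 (n - 1) := by
        ext m
        simp only [mem_image, mem_Icc]
        constructor
        · rintro ⟨δ, h, rfl⟩
          omega
        · intro h
          exact ⟨n - m, by omega, by omega⟩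
      rw [← image_val_of_injOn h2, h3]
      have h4 : ((List.range' 1 (n - 1)).reverse : Multiset ℕ) =
          ((List.range' 1 (n - 1) : List ℕ) : Multiset ℕ) :=
        Multiset.coe_eq_coe.2 (List.reverse_perm _)
      rw [h4]
      have h5 : (Icc 1 (n - 1) : Finset ℕ).val = ((List.range' 1 (n - 1 + 1 - 1) : List ℕ) : Multiset ℕ) := rfl
      rw [h5]
      simp
    · intro x _ y _ hxy
      exact sqrt_f_inj hxy
  rw [hperm]
  apply List.Perm.eq_of_pairwise (le := (· ≥ ·))
  · intro x y _ _ h1 h2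
    exact le_antisymm h2 h1
  · exact Multiset.pairwise_sort _ _
  · rw [List.pairwise_reverse]
    have := List.pairwise_lt_range' (s := 1) (n := n - 1) (step := 1) (by norm_num)
    exact this.imp (fun h => le_of_lt h)
  · rw [← Multiset.coe_eq_coe, Multiset.sort_eq]

/-! ### The zigzag set is of none of the three types -/

lemma P_even (i : ℕ) : P (2 * i) 0 = 2 * (i : ℝ) ∧ P (2 * i) 1 = 0 := by
  constructor <;> simp [P]

lemma P_one : P 1 0 = 1 ∧ P 1 1 = √2 := by
  constructor <;> simp [P]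

/-- three points of the line `y = 0` are not equidistant from `c` -/
lemma no_three (c : E) (r : ℝ) (i j k : ℕ) (hij : i ≠ j) (hik : i ≠ k) (hjk : j ≠ k)
    (h1 : dist (P (2 * i)) c = r) (h2 : dist (P (2 * j)) c = r) (h3 : dist (P (2 * k)) c = r) :
    False := by
  have key : ∀ m : ℕ, dist (P (2 * m)) c = r → (2 * (m : ℝ) - c 0) ^ 2 + (c 1) ^ 2 = r ^ 2 := by
    intro m hm
    rw [← hm, EuclideanSpace.dist_eq, Real.sq_sqrt (by positivity)]
    simp only [Fin.sum_univ_two, Real.dist_eq, sq_abs]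
    rw [(P_even m).1, (P_even m).2]
    ring
  have e1 := key i h1
  have e2 := key j h2
  have e3 := key k h3
  have hij' : (i : ℝ) - j ≠ 0 := sub_ne_zero.2 (by exact_mod_cast hij)
  have hik' : (i : ℝ) - k ≠ 0 := sub_ne_zero.2 (by exact_mod_cast hik)
  have hjk' : (j : ℝ) - k ≠ 0 := sub_ne_zero.2 (by exact_mod_cast hjk)
  have e4 : ((i : ℝ) - j) * (i + j - c 0) = 0 := by linarith [e1, e2, mul_comm (c 0) (i : ℝ)]
  have e5 : ((i : ℝ) - k) * (i + k - c 0) = 0 := by linarith [e1, e3, mul_comm (c 0) (i : ℝ)]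
  have e6 := (mul_eq_zero.1 e4).resolve_left hij'
  have e7 := (mul_eq_zero.1 e5).resolve_left hik'
  apply hjk'
  linarith

lemma dist_circ (c : E) (r t : ℝ) (hr : 0 < r) : dist (circ c r t) c = r := by
  unfold circ
  rw [dist_eq_norm, add_sub_cancel_left, norm_smul, Real.norm_eq_abs, abs_of_pos hr,
    EuclideanSpace.norm_eq]
  simp

lemma not_typeA (n : ℕ) (hn : 3 ≤ n) : ¬ TypeA (X n) n := by
  rintro ⟨p, v, hv, h⟩
  have hm : ∀ x : ℕ, x < n → ∃ j : ℕ, P x = p + (j : ℝ) • v := by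
    intro x hx
    have h1 : P x ∈ ((X n : Finset E) : Set E) := mem_X.2 ⟨x, hx, rfl⟩
    rw [h] at h1
    obtain ⟨j, -, hj⟩ := h1
    exact ⟨j, hj⟩
  obtain ⟨i, hi⟩ := hm (2 * 0) (by omega)
  obtain ⟨j, hj⟩ := hm 1 (by omega)
  obtain ⟨k, hk⟩ := hm (2 * 1) (by omega)
  have e1 := congrArg (fun v : E => v 0) hi
  have e2 := congrArg (fun v : E => v 1) hi
  have e4 := congrArg (fun v : E => v 1) hj
  have e5 := congrArg (fun v : E => v 0) hk
  have e6 := congrArg (fun v : E => v 1) hk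
  simp only [PiLp.add_apply, PiLp.smul_apply, smul_eq_mul] at e1 e2 e4 e5 e6
  rw [(P_even 0).1] at e1
  rw [(P_even 0).2] at e2
  rw [P_one.2] at e4
  rw [(P_even 1).1] at e5
  rw [(P_even 1).2] at e6
  push_cast at e1 e5
  have e7 : ((k : ℝ) - i) * v 0 = 2 := by linarith
  have e8 : ((k : ℝ) - i) * v 1 = 0 := by linarith
  have e9 : (k : ℝ) - i ≠ 0 := by
    intro h0
    rw [h0] at e7
    norm_num at e7
  have e10 : v 1 = 0 := (mul_eq_zero.1 e8).resolve_left e9
  rw [e10] at e2 e4
  have : (0 : ℝ) < √2 := by positivity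
  linarith

lemma not_typeB (n : ℕ) (hn : 5 ≤ n) : ¬ TypeB (X n) n := by
  rintro ⟨c, r, α, θ, hr, -, -, h⟩
  have hm : ∀ x : ℕ, x < n → dist (P x) c = r := by
    intro x hx
    have h1 : P x ∈ ((X n : Finset E) : Set E) := mem_X.2 ⟨x, hx, rfl⟩
    rw [h] at h1
    obtain ⟨j, -, hj⟩ := h1
    rw [hj]
    exact dist_circ c r _ hr
  exact no_three c r 0 1 2 (by norm_num) (by norm_num) (by norm_num) (hm _ (by omega))
    (hm _ (by omega)) (hm _ (by omega))

lemma not_typeC (n : ℕ) (hn : 7 ≤ n) : ¬ TypeC (X n) n := by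
  rintro ⟨c, r, α, θ, hr, -, -, h⟩
  have hm : ∀ x : ℕ, x < n → P x = c ∨ dist (P x) c = r := by
    intro x hx
    have h1 : P x ∈ ((X n : Finset E) : Set E) := mem_X.2 ⟨x, hx, rfl⟩
    rw [h] at h1
    rcases h1 with h1 | ⟨j, -, hj⟩
    · exact Or.inl h1
    · right
      rw [hj]
      exact dist_circ c r _ hr
  have hne : ∀ x y : ℕ, x < n → P y = c → x ≠ y → dist (P x) c = r := by
    intro x y hx hy hxy
    rcases hm x hx with h1 | h1
    · exact absurd (P_inj (h1.trans hy.symm)) hxy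
    · exact h1
  rcases hm (2 * 0) (by omega) with h0 | h0
  · exact no_three c r 1 2 3 (by norm_num) (by norm_num) (by norm_num)
      (hne _ _ (by omega) h0 (by norm_num)) (hne _ _ (by omega) h0 (by norm_num))
      (hne _ _ (by omega) h0 (by norm_num))
  rcases hm (2 * 1) (by omega) with h1 | h1
  · exact no_three c r 0 2 3 (by norm_num) (by norm_num) (by norm_num) h0
      (hne _ _ (by omega) h1 (by norm_num)) (hne _ _ (by omega) h1 (by norm_num))
  rcases hm (2 * 2) (by omega) with h2 | h2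
  · exact no_three c r 0 1 3 (by norm_num) (by norm_num) (by norm_num) h0 h1
      (hne _ _ (by omega) h2 (by norm_num))
  exact no_three c r 0 1 2 (by norm_num) (by norm_num) (by norm_num) h0 h1 h2

/-- **Answer to the question: the statement is false.** For every `n ≥ 7` there is a set of `n`
points of the plane whose list of distance multiplicities is `(n - 1, n - 2, ..., 1)` and which is
of none of the types (A), (B), (C). -/
theorem result : ∀ n : ℕ, 7 ≤ n → ∃ X : Finset E, X.card = n ∧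
    a X = (List.range' 1 (n - 1)).reverse ∧ ¬ TypeA X n ∧ ¬ TypeB X n ∧ ¬ TypeC X n :=
  fun n hn => ⟨X n, card_X n, a_X n, not_typeA n (by omega), not_typeB n (by omega),
    not_typeC n hn⟩

end Pool.Agent.Results.MP_9c346b_co.Zigzag
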